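import Pool.Agent.U570.AH.Conv
import Pool.Agent.U570.AH.TriplesJ

/-!
# Almost all the constants of a residue class, for a positive proportion of all triples `(a, b, c₀)`

There is an absolute constant `B` such that for every `ε > 0` there are `δ > 0` and `C` with the following property. Let
`W ≥ C`, `H ≥ W ^ 2`, and let `M ≥ 1` be divisible by all `m ≤ W`. There is an exponent `α ≤ C` such that in every
interval `[X, X + Y)` of length `Y ≥ Y₀`, for at least `δ W ^ 2 H` of the triples `(a, b, c₀)` with `1 ≤ a, b ≤ W`,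
`|c₀| ≤ H`, at least the proportion `1 - ε` of ALL the integers `x` of the interval have the property that the equation

  `a p - b q = c`, where `c = c₀ + a M ^ α x`,

satisfies the hypotheses of the question, has infinitely many solutions in primes `p, q`, and at least
`Z / (log Z) ^ B` solutions with `q ≤ Z` for arbitrarily large `Z` (the same `Z` for all these `x`). So for a positive
proportion of all the coefficients `(a, b)` and all the classes `c₀` (modulo `a M ^ α`, one `α` for all of them) almost all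
the constants of the class in an arbitrarily long interval are good.

Proof. Choose slopes `f 0, ..., f K` (a positive proportion of all the tuples of the numbers up to `W`, with
products of consecutive slopes dividing `M`) and residues `h`; the vertices of a partite graph with `T` classes are linear
forms; the pair of a vertex of the class `i` and a vertex of the class `j` has the coefficients
`a = A i j k`, `b = B i j k` and the constants `A i j k h' - B i j k h + A i j k M ^ α x`. The pairs whose equation is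
not good at the scale `Z` are given by kernels `F_k (x' - ν_k x)`. Up to a small error in cut norm `F_k` can be replaced by
its average over a progression whose modulus is a power of `M`: at a frequency which is not near a rational number
with a small denominator only boundedly many of the `ν_k` can contribute. If the proportion `ε` of the constants is bad for
all `k` and `α`, then a pigeonhole argument (along the blocks of the classes the averages stabilise: energy increment)
gives four classes with a positive proportion of quadruples of forms all of whose six pairs are bad at the scale `Z`.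
This contradicts the coloured Maynard-Tao theorem `Pool.Agent.N900.FC.Main.coverU` (starting files).
-/

set_option autoImplicit false

namespace Pool.Agent.Results.MP_bf63dc_nt.AlmostFullClasses

open Finset Filter

/-- the hypotheses of the question -/
def Adm (a b : ℕ) (c : ℤ) : Prop :=
  1 ≤ a ∧ 1 ≤ b ∧ c ≠ 0 ∧ IsCoprime (a : ℤ) b ∧ IsCoprime (a : ℤ) c ∧ IsCoprime (b : ℤ) c ∧
    ¬ (Odd a ∧ Odd b ∧ Odd c)

/-- the number of the primes `q ≤ Z` such that `a p - b q = c` with `p` prime -/
noncomputable def count (a b : ℕ) (c : ℤ) (Z : ℕ) : ℕ :=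
  {q : ℕ | (q.Prime ∧ ∃ p : ℕ, p.Prime ∧ (a : ℤ) * p - b * q = c) ∧ q ≤ Z}.ncard

/-- at least the proportion `1 - ε` of the constants `c = c₀ + m x`, `X ≤ x < X + Y`, satisfy the hypotheses and
the conclusion of the question, and for arbitrarily large `Z` (the same for all these `x`) there are at least
`Z / (log Z) ^ B` primes `q ≤ Z` such that `a p - b q = c` with `p` prime -/
def AlmostAll (B : ℕ) (ε : ℝ) (a b : ℕ) (c₀ m : ℤ) (X Y : ℕ) : Prop :=
  ∃ E ⊆ Ico X (X + Y), (1 - ε) * (Y : ℝ) ≤ (E.card : ℝ) ∧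
    (∀ x ∈ E, Adm a b (c₀ + m * x) ∧
      {pq : ℕ × ℕ | pq.1.Prime ∧ pq.2.Prime ∧ (a : ℤ) * pq.1 - b * pq.2 = c₀ + m * x}.Infinite) ∧
    ∃ᶠ Z : ℕ in atTop, ∀ x ∈ E, (Z : ℝ) / (Real.log Z) ^ B ≤ (count a b (c₀ + m * x) Z : ℝ)

open Classical in
theorem result : ∃ B : ℕ, ∀ ε : ℝ, 0 < ε → ∃ (C : ℕ) (δ : ℝ), 0 < δ ∧
    ∀ W : ℕ, C ≤ W → ∀ H : ℕ, W ^ 2 ≤ H → ∀ M : ℕ, 1 ≤ M → (∀ m : ℕ, 1 ≤ m → m ≤ W → m ∣ M) →
    ∃ α : ℕ, 1 ≤ α ∧ α ≤ C ∧ ∃ Y₀ : ℕ, ∀ Y : ℕ, Y₀ ≤ Y → ∀ X : ℕ,
      δ * ((W : ℝ) ^ 2 * H) ≤ ((((Icc 1 W ×ˢ Icc 1 W) ×ˢ Icc (-(H : ℤ)) H).filter (fun t =>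
        AlmostAll B ε t.1.1 t.1.2 t.2 ((t.1.1 * M ^ α : ℕ) : ℤ) X Y)).card : ℝ) := by
  obtain ⟨B, h⟩ := Pool.Agent.U570.AH.triples_simple_j
  refine ⟨B, fun ε hε => ?_⟩
  obtain ⟨C, δ, hδ, h1⟩ := h ε hε
  refine ⟨C, δ, hδ, fun W hW H hH M hM hMW => ?_⟩
  obtain ⟨α, hα1, hαC, Y₀, h2⟩ := h1 W hW H hH M hM hMW
  refine ⟨α, hα1, hαC, Y₀, fun Y hY X => (h2 Y hY X).trans ?_⟩
  rw [Nat.cast_le]
  refine card_le_card fun t ht => ?_
  rw [mem_filter] at ht ⊢
  obtain ⟨ht1, h3⟩ := ht
  refine ⟨ht1, ?_⟩
  have e : ∀ x : ℕ, t.2 + (t.1.1 : ℤ) * ((M : ℤ) ^ α * (x : ℤ)) =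
      t.2 + ((t.1.1 * M ^ α : ℕ) : ℤ) * (x : ℤ) := fun x => by push_cast; ring
  simp only [e] at h3
  exact Pool.Agent.U570.AH.lg_conv B ε X Y t.1.1 t.1.2 _ h3

end Pool.Agent.Results.MP_bf63dc_nt.AlmostFullClasses
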