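import Mathlib
import Pool.Agent.U289.KT.Slopes

/-!
# Prime points on all the lines through a common point with slopes in a large set

For coprime `a, b` the solutions of `a p - b q = c` are the integer points `(p, q)` of a line of direction `(b, a)`.
Here all the lines through one point are treated at once. Let `X` be any set of positive integers which contains,
for all `Q ≥ 1`, arbitrarily large elements `x ≡ 1` modulo `Q` (for instance the set of the primes), and let
`W_0, W_1, …` be any sequence of finite nonempty sets of positive integers (for instance the intervals `[1, t]`).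
For every `ε > 0` there are a set `S` of positive integers which contains at least the proportion `5/18 - ε` of
infinitely many `W_t` (so `S` has upper density at least `5/18 - ε` for the intervals), and elements
`u_0 < u_1 < …` of `X`, `u_n ≡ 1` modulo `n!`, `u_(n+1) ≥ (n + 2) u_n`, such that:

* for all `i_1 < ⋯ < i_k` with `k ≤ i_1` and ALL slopes `a_1, …, a_k ∈ S` with `a_t ≤ i_1` the `k` numbers
  `a_t n + u_{i_t}` have all patterns of primes: for every length `l` there are `C` and arbitrarily large `N`, the
  same for all these choices of slopes `a_t ≤ m` and for all sets `J` of indices, such that for some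
  `1 ≤ d ≤ (log N) ^ C` there are `N / (log N) ^ C` integers `n ≤ N` such that for the `l` numbers
  `n, n + d, …, n + (l - 1) d` in place of `n` exactly those `a_t n + u_{i_t}` with `t ∈ J` are prime;
* for all `a, b ∈ S` and all `i < j` with `i ≥ 2, a, b`, let `g = gcd(a, b)`. Then the equation
  `(a/g) p - (b/g) q = (a/g) u_j - (b/g) u_i` satisfies the hypotheses of the question, and it has infinitely many
  solutions in primes: all the lines through the point `(u_j, u_i)` (a point with prime coordinates, if `X` is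
  the set of the primes) whose slopes are quotients of elements `≤ i` of `S` contain infinitely many points
  with prime coordinates.

The earlier results find solvable equations among any five (or four) slopes, one position of the line for each
pair; here one common point serves for all pairs of slopes from a set of positive density, and `k` primes at once.

Proof. Fix an ultrafilter on the indices of the columns `(a n + u_j)_a`. A set of slopes is called free, if every
word in its elements is realised by iterated limits. The coloured Maynard-Tao theorem with the constant `18/5`, all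
patterns and narrow progressions (`Pool.Agent.Y827.HN.patR`, starting files) and a pigeonhole argument show that for
every weight on a finite set of slopes some free subset has at least `5/18` of the weight. By Pták's lemma on convex
means (`Pool.Agent.Helper639.Tk.ptak`, starting files) this implies that there are an infinite set of windows and, for
every finite part of it, a free set which is large in these windows; limits of free sets are free.
-/

set_option autoImplicit false

namespace Pool.Agent.Results.MP_bf63dc_nt.FreeSlopes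

open Filter Finset

open Classical in
/-- the number of the integers `1 ≤ n ≤ N` such that for each `m = n, n + d, …, n + (l - 1) d` exactly those of
the numbers `a t * m + u t` with `t ∈ J` are prime -/
noncomputable def starts {k : ℕ} (a u : Fin k → ℕ) (J : Finset (Fin k)) (l d N : ℕ) : ℕ :=
  ((Icc 1 N).filter (fun n : ℕ => ∀ i < l, ∀ t : Fin k, (a t * (n + i * d) + u t).Prime ↔ t ∈ J)).card

/-- the hypotheses of the question -/
def Adm (a b : ℕ) (c : ℤ) : Prop :=
  1 ≤ a ∧ 1 ≤ b ∧ c ≠ 0 ∧ IsCoprime (a : ℤ) b ∧ IsCoprime (a : ℤ) c ∧ IsCoprime (b : ℤ) c ∧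
    ¬ (Odd a ∧ Odd b ∧ Odd c)

theorem result (ε : ℝ) (hε : 0 < ε) (X : Set ℕ)
    (hX : ∀ Q B : ℕ, 1 ≤ Q → ∃ x ∈ X, B ≤ x ∧ x ≡ 1 [MOD Q])
    (W : ℕ → Finset ℕ) (hW : ∀ t, (W t).Nonempty) (hW0 : ∀ t, 0 ∉ W t) :
    ∃ (S : Set ℕ) (u : ℕ → ℕ), (∀ a ∈ S, 1 ≤ a) ∧
      (∃ᶠ t in atTop, (5 / 18 - ε) * ((W t).card : ℝ) ≤ (((W t : Set ℕ) ∩ S).ncard : ℝ)) ∧
      (∀ n, u n ∈ X ∧ u n ≡ 1 [MOD n.factorial] ∧ (n + 2) * u n ≤ u (n + 1)) ∧
      (∀ (k m : ℕ) (i : Fin k → ℕ), StrictMono i → (∀ t, k ≤ i t ∧ m ≤ i t) →
        ∀ l : ℕ, ∃ C : ℕ, ∃ᶠ N : ℕ in atTop, ∀ a : Fin k → ℕ, (∀ t, a t ∈ S ∧ a t ≤ m) →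
          ∀ J : Finset (Fin k), ∃ d : ℕ, 1 ≤ d ∧ (d : ℝ) ≤ (Real.log N) ^ C ∧
            (N : ℝ) / (Real.log N) ^ C ≤ (starts a (fun t => u (i t)) J l d N : ℝ)) ∧
      ∀ a ∈ S, ∀ b ∈ S, ∀ i j : ℕ, 2 ≤ i → a ≤ i → b ≤ i → i < j →
        Adm (a / a.gcd b) (b / a.gcd b)
          (((a / a.gcd b : ℕ) : ℤ) * u j - ((b / a.gcd b : ℕ) : ℤ) * u i) ∧
        {x : ℕ × ℕ | x.1.Prime ∧ x.2.Prime ∧
          ((a / a.gcd b : ℕ) : ℤ) * x.1 - ((b / a.gcd b : ℕ) : ℤ) * x.2 =
            ((a / a.gcd b : ℕ) : ℤ) * u j - ((b / a.gcd b : ℕ) : ℤ) * u i}.Infinite := by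
  obtain ⟨S, u, h1, h2, h3, h4⟩ := Pool.Agent.U289.KT.slopes ε hε X hX W hW hW0
  refine ⟨S, u, h1, h2, fun n => ⟨(h3 n).1, (h3 n).2.2.1, (h3 n).2.2.2⟩, h4, ?_⟩
  intro a ha b hb i j hi hai hbi hij
  have ha1 := h1 a ha
  have hb1 := h1 b hb
  have hg : 0 < a.gcd b := Nat.gcd_pos_of_pos_left _ ha1
  have e1 : a.gcd b * (a / a.gcd b) = a := Nat.mul_div_cancel' (Nat.gcd_dvd_left a b)
  have e2 : a.gcd b * (b / a.gcd b) = b := Nat.mul_div_cancel' (Nat.gcd_dvd_right a b)
  exact Pool.Agent.U289.KT.pairs (fun n => (h3 n).2) h4 (a.gcd b) (a / a.gcd b) (b / a.gcd b)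
    (by rw [e1]; exact ha) (by rw [e2]; exact hb) (by rw [e1]; exact ha1) (by rw [e2]; exact hb1)
    (Nat.coprime_div_gcd_div_gcd hg) i j hij hi (by rw [e1]; exact hai) (by rw [e2]; exact hbi)

end Pool.Agent.Results.MP_bf63dc_nt.FreeSlopes
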