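import Pool.Agent.U828.KD.One
import Pool.Agent.U828.CV.Even
import Pool.Agent.TH935.LF13

/-!
# The equation `a p - b q = c` in primes, for all `c` near almost all values of an arbitrary function of higher convexity

Let `f` be ANY function on `{1, …, x}`, `x ≥ N ^ (1 / r + η)` (`r ≥ 2`), with values in `[-B N, B N]`, whose differences of
order `r` are all at least `N / (x ^ r (log N) ^ C)`, or all at most the negative of this number. For all but at most
`x / (log N) ^ U` of the `m ≤ x` the following holds for ALL the integers `c ≠ 0` at a distance of at most `(log N) ^ C`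
from `f(m)` and ALL the pairs `a, b ≥ 1` up to `(log N) ^ D` such that `a, b, c` satisfy the hypotheses of the question: the
number of the prime solutions of `a p - b q = c` with `q` in an arbitrary interval of length at least `N / (log N) ^ A` up
to `B N` is the one predicted by Hardy and Littlewood, up to the factor `1 ± ε`. The theorem is uniform in `f`.

For `r = 2` these are the strictly convex (or concave) functions. For larger `r` there are only `N ^ (1 / r + η)` points,
so the constants `c` run through neighbourhoods of arbitrarily sparse sets; no regularity is assumed besides the sign and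
the size of the `r`-th differences. The earlier results of this problem on thin sets of constants treat real polynomials,
polynomials at integers with restricted digits and bounded numbers of added powers.

Definition used from `Pool.Agent.H560R3.GB` (starting files): `sing m`, the singular series
`2 C₂ ∏_{p ∣ m, p > 2} (p - 1) / (p - 2)` with `C₂ = ∏_{p > 2} (1 - 1 / (p - 1) ^ 2)`.

Proof: the energy theorem `Pool.Agent.U828.KD.energy_r` (helper828: an `r`-th derivative test for arbitrary sequences, and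
Fejér kernels), the passage to all the integers near the values `Pool.Agent.U828.KD.nearOne` (helper828), and the theorem
of the starting files on the values of linear forms at primes for thin families of small energy (`Pool.Agent.TH935.LF`).
-/

set_option autoImplicit false

namespace Pool.Agent.Results.MP_bf63dc_nt.HigherConvexConstants

open Finset
open Pool.Agent.H560R3.GB (sing)

open Classical in
/-- the number of the prime solutions `(p, q)` of `a p - b q = c` with `y₁ < q ≤ y₂` -/
noncomputable def solutions (a b : ℕ) (c : ℤ) (y₁ y₂ : ℕ) : ℕ :=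
  ((Ioc y₁ y₂).filter (fun q : ℕ => q.Prime ∧ ∃ p : ℕ, p.Prime ∧ (a : ℤ) * p - b * q = c)).card

/-- the hypotheses of the question: `a, b ≥ 1` and `c ≠ 0` are pairwise relatively prime and not all odd -/
def Admissible (a b : ℕ) (c : ℤ) : Prop :=
  1 ≤ a ∧ 1 ≤ b ∧ c ≠ 0 ∧ IsCoprime (a : ℤ) b ∧ IsCoprime (a : ℤ) c ∧ IsCoprime (b : ℤ) c ∧
    (Even (a : ℤ) ∨ Even (b : ℤ) ∨ Even c)

/-- For all `a, b ≤ (log N) ^ D` such that `a, b, c` satisfy the hypotheses of the question, and all
`y₁ < y₂ ≤ B N` with `y₂ - y₁ ≥ N / (log N) ^ A` and `c + b q > 0` for `y₁ < q ≤ y₂`, the number of the prime solutions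
`(p, q)` of `a p - b q = c` with `y₁ < q ≤ y₂` is `sing (a b c) (y₂ - y₁) / (a log² N)`, up to a relative error of at
most `ε`. -/
def Holds (ε : ℝ) (A B D N : ℕ) (c : ℤ) : Prop :=
  ∀ a b : ℕ, (a : ℝ) ≤ Real.log N ^ D → (b : ℝ) ≤ Real.log N ^ D → Admissible a b c →
    ∀ y₁ y₂ : ℕ, y₁ < y₂ → y₂ ≤ B * N → (N : ℝ) / Real.log N ^ A ≤ (y₂ : ℝ) - y₁ →
    (∀ q ∈ Ioc y₁ y₂, 0 < c + b * (q : ℤ)) →
      |(solutions a b c y₁ y₂ : ℝ) - sing (a * b * c).natAbs * ((y₂ : ℝ) - y₁) / (a * Real.log N ^ 2)| ≤
        ε * (sing (a * b * c).natAbs * ((y₂ : ℝ) - y₁) / (a * Real.log N ^ 2))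

/-- The differences of order `r` of `f` on `{1, ..., x}` are all at least `κ`, or all at most `-κ`. Here `fwdDiff 1 f m`
is the difference `f (m + 1) - f m`. -/
def Bent (r x : ℕ) (f : ℕ → ℝ) (κ : ℝ) : Prop :=
  (∀ m, 1 ≤ m → m + r ≤ x → κ ≤ (fwdDiff 1)^[r] f m) ∨ (∀ m, 1 ≤ m → m + r ≤ x → (fwdDiff 1)^[r] f m ≤ -κ)

open Classical in
/-- The number of the `m ≤ x` for which `Holds ε A B D N c` fails for some integer `c ≠ 0` with
`|c - f(m)| ≤ (log N) ^ C`. -/
noncomputable def exceptions (f : ℕ → ℝ) (ε : ℝ) (A B C D N x : ℕ) : ℕ :=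
  ((Icc 1 x).filter (fun m : ℕ => ∃ c : ℤ, c ≠ 0 ∧ |(c : ℝ) - f m| ≤ Real.log N ^ C ∧ ¬ Holds ε A B D N c)).card

lemma holds_of (ε : ℝ) (A B D N : ℕ) (c : ℤ) (h : Pool.Agent.TH935.LF.HW (min ε (1 / 2)) A (B + 1) D N c) :
    Holds ε A B D N c := by
  classical
  rintro a b ha hb ⟨h1, h2, h3, h4, h5, h6, h7⟩ y₁ y₂ hy hy2 hlen hpos
  have h8 := h a b h1 ha (by exact_mod_cast (by omega : b ≠ 0)) (by simpa using hb) h4 h5 h6 (by
    rcases h7 with h7 | h7 | h7
    · exact Dvd.dvd.mul_right (Dvd.dvd.mul_right h7.two_dvd _) _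
    · exact Dvd.dvd.mul_right (Dvd.dvd.mul_left h7.two_dvd _) _
    · exact Dvd.dvd.mul_left h7.two_dvd _) y₁ y₂ hy (hy2.trans (Nat.mul_le_mul_right _ (by omega))) hlen hpos
  have e : Pool.Agent.TH935.LF.cn a b c y₁ y₂ = solutions a b c y₁ y₂ := by
    unfold Pool.Agent.TH935.LF.cn solutions
    congr 1
    apply filter_congr
    intro q _
    constructor
    · rintro ⟨g1, p, g2, g3⟩
      exact ⟨g1, p, g2, by rw [g3]; ring⟩
    · rintro ⟨g1, p, g2, g3⟩
      exact ⟨g1, p, g2, by rw [← g3]; ring⟩
  rw [e] at h8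
  refine h8.trans ?_
  apply mul_le_mul_of_nonneg_right (min_le_left _ _)
  have h9 := Pool.Agent.W93.GB.one_le_sing (a * b * c).natAbs
  have h10 : (y₁ : ℝ) < y₂ := by exact_mod_cast hy
  apply div_nonneg _ (by positivity)
  apply mul_nonneg (by linarith) (by linarith)

/-- **The equation `a p - b q = c` near the values of arbitrary functions.** Let `r ≥ 2`, `A`, `B`, `C`, `D`, `U`, `η > 0`
and `ε > 0` be given. For all sufficiently large `N`, all `x ≥ N ^ (1 / r + η)` and ALL functions `f` with values in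
`[-B N, B N]` on `{1, ..., x}` whose differences of order `r` are all at least `N / (x ^ r (log N) ^ C)`, or all at most the
negative of this number: for all but at most `x / (log N) ^ U` of the `m ≤ x`, ALL the integers `c ≠ 0` with
`|c - f(m)| ≤ (log N) ^ C` have the property `Holds ε A B D N c`. -/
theorem result (r A B C D U : ℕ) (hr : 2 ≤ r) (η ε : ℝ) (hη : 0 < η) (hε : 0 < ε) : ∃ N₀ : ℕ, ∀ N : ℕ, N₀ ≤ N →
    ∀ x : ℕ, (N : ℝ) ^ (1 / (r : ℝ) + η) ≤ x → ∀ f : ℕ → ℝ, (∀ m ∈ Icc 1 x, |f m| ≤ B * N) →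
    Bent r x f (N / ((x : ℝ) ^ r * Real.log N ^ C)) → (exceptions f ε A B C D N x : ℝ) ≤ x / Real.log N ^ U := by
  classical
  have hε' : 0 < min ε (1 / 2) := by positivity
  obtain ⟨p, D', V, n1, hp, h1⟩ := Pool.Agent.U828.KD.nearOne r hr (B + 1) C U η hη
  obtain ⟨n2, h2⟩ := Pool.Agent.TH935.LF.transferZ p (B + 1) D' V
    (fun N c => Pool.Agent.TH935.LF.HW (min ε (1 / 2)) A (B + 1) D N c) (fun C U =>
        Pool.Agent.TH935.LF.fam_lin p A (B + 1) C D U _ hε' (min_le_right _ _))
  obtain ⟨n3, h3⟩ := Pool.Agent.H373R2.T7.ev_log' C 1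
  refine ⟨n1 + n2 + n3 + 1, fun N hN x hx f hf hb => ?_⟩
  have h4 := h3 N (by omega)
  rw [one_mul] at h4
  have hN1 : (1 : ℝ) ≤ N := by exact_mod_cast (by omega : 1 ≤ N)
  have h5 : Real.log N ^ C ≤ N := by
    refine h4.trans ?_
    rw [Real.sqrt_le_left (by positivity)]
    nlinarith
  unfold exceptions
  apply h1 N (by omega) (fun c => c ≠ 0 → Pool.Agent.TH935.LF.HW (min ε (1 / 2)) A (B + 1) D N c) _ x hx f
    (fun m hm => (hf m hm).trans (by push_cast; nlinarith)) hb _ (filter_subset _ _)
  · intro m hm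
    rw [mem_filter] at hm
    obtain ⟨c, hc0, hc1, hc2⟩ := hm.2
    refine ⟨c, ?_, hc1, fun hcon => hc2 (holds_of ε A B D N c (hcon hc0))⟩
    have h6 := hf m hm.1
    have h7 : |(c : ℝ)| ≤ |f m| + Real.log N ^ C := by
      have e : (c : ℝ) = f m + (c - f m) := by ring
      rw [e]
      exact (abs_add_le _ _).trans (by linarith)
    push_cast
    linarith
  · apply Pool.Agent.U828.CV.At.crit1_of_fam
    intro ι _ v hv hE S hS
    apply h2 N (by omega) ι v hv hE S
    intro i hi
    have h6 := hS i hi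
    push Not at h6
    exact h6

end Pool.Agent.Results.MP_bf63dc_nt.HigherConvexConstants
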