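import Pool.Agent.U108.DP.E1
import Pool.Agent.TH935.LF13

/-!
# The equation `a p - b q = c` in primes, for all `c` near almost all the values of arbitrary polynomials in several
# variables at integers with restricted digits

Let `F` be any polynomial of total degree `d ≥ 2` with integer coefficients, in any number of variables (a power, a
quadratic form, a norm form, a discriminant, a determinant ...), and let the variables run through integers whose digits
in base `g` are restricted to arbitrary sets of at least two digits. For almost all choices of the variables, and for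
ALL the integers `c` close to the value of `F` and ALL small coefficients `a`, `b`, the equation `a p - b q = c` has the
number of prime solutions predicted by Hardy and Littlewood.

Definitions used:
* from `Pool.Agent.H560R3.GB` (starting files): `sing m`: the singular series `2 C₂ ∏_{p ∣ m, p > 2} (p - 1) / (p - 2)`,
  `C₂ = ∏_{p > 2} (1 - 1 / (p - 1) ^ 2)`;
* from `Pool.Agent.TH872.GQ` (starting files): `S g E k`: the integers `0 ≤ n < g ^ k` whose `i`-th digit in base `g` lies
  in `E i`, for all `i < k`;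
* from `Pool.Agent.U108.DP`: `Bo g k E`: the tuples `n` of natural numbers with `n j ∈ S g (E j) k` for all `j`;
  `val F n`: the value of the polynomial `F` at the tuple `n`.

Method: the multilinear Weyl inequality for windows of digits (`U108.DP.weyl_windows`) shows that the values of `F` have an
additive energy of high order which is minimal up to a constant (`U108.DP.poly_energy`); then the theorem of the starting
files on linear forms at primes for thin families of this kind (`TH935.LF`) applies.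
-/

set_option autoImplicit false

namespace Pool.Agent.Results.MP_bf63dc_nt.PolynomialsRestrictedDigits

open Finset Pool.Agent.U108.DP
open Pool.Agent.H560R3.GB (sing)

open Classical in
/-- the number of the prime solutions `(p, q)` of `a p - b q = c` with `y₁ < q ≤ y₂` -/
noncomputable def solutions (a b : ℕ) (c : ℤ) (y₁ y₂ : ℕ) : ℕ :=
  ((Ioc y₁ y₂).filter (fun q : ℕ => q.Prime ∧ ∃ p : ℕ, p.Prime ∧ (a : ℤ) * p - b * q = c)).card

/-- the hypotheses of the question: `a, b ≥ 1` and `c ≠ 0` are pairwise relatively prime and not all odd -/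
def Admissible (a b : ℕ) (c : ℤ) : Prop :=
  1 ≤ a ∧ 1 ≤ b ∧ c ≠ 0 ∧ IsCoprime (a : ℤ) b ∧ IsCoprime (a : ℤ) c ∧ IsCoprime (b : ℤ) c ∧
    (Even (a : ℤ) ∨ Even (b : ℤ) ∨ Even c)

/-- For all `a, b ≤ (log N) ^ T` such that `a, b, c` satisfy the hypotheses of the question, and all
`y₁ < y₂ ≤ H N` with `y₂ - y₁ ≥ N / (log N) ^ A` and `c + b q > 0` for `y₁ < q ≤ y₂`, the number of the prime solutions
`(p, q)` of `a p - b q = c` with `y₁ < q ≤ y₂` is `sing (a b c) (y₂ - y₁) / (a log² N)`, up to a relative error of at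
most `ε`. -/
def Holds (ε : ℝ) (A H T N : ℕ) (c : ℤ) : Prop :=
  ∀ a b : ℕ, (a : ℝ) ≤ Real.log N ^ T → (b : ℝ) ≤ Real.log N ^ T → Admissible a b c →
    ∀ y₁ y₂ : ℕ, y₁ < y₂ → y₂ ≤ H * N → (N : ℝ) / Real.log N ^ A ≤ (y₂ : ℝ) - y₁ →
    (∀ q ∈ Ioc y₁ y₂, 0 < c + b * (q : ℤ)) →
      |(solutions a b c y₁ y₂ : ℝ) - sing (a * b * c).natAbs * ((y₂ : ℝ) - y₁) / (a * Real.log N ^ 2)| ≤
        ε * (sing (a * b * c).natAbs * ((y₂ : ℝ) - y₁) / (a * Real.log N ^ 2))

/-- The sets `E j i`, `i < k`, are sets of at least two digits in base `g`. -/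
def Digits {J : Type} (g k : ℕ) (E : J → ℕ → Finset ℕ) : Prop := ∀ j, ∀ i < k, E j i ⊆ range g ∧ 2 ≤ (E j i).card

open Classical in
/-- The number of the tuples `n` in `Bo g k E` for which `Holds ε A H T N c` fails for some integer `c ≠ 0` at a distance
of at most `k ^ W` from `F(n)`. -/
noncomputable def exceptions {J : Type} [Fintype J] [DecidableEq J] (g k : ℕ) (E : J → ℕ → Finset ℕ) (F : MvPolynomial J ℤ)
    (ε : ℝ) (A H T W N : ℕ) : ℕ :=
  ((Bo g k E).filter (fun n => ∃ c : ℤ, c ≠ 0 ∧ |c - val F n| ≤ (k : ℤ) ^ W ∧ ¬ Holds ε A H T N c)).card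

lemma holds_of (ε : ℝ) (A B H T N : ℕ) (hBH : H ≤ B) (c : ℤ) (h : Pool.Agent.TH935.LF.HW (min ε (1 / 2)) A B T N c) :
    Holds ε A H T N c := by
  classical
  rintro a b ha hb ⟨h1, h2, h3, h4, h5, h6, h7⟩ y₁ y₂ hy hy2 hlen hpos
  have h8 := h a b h1 ha (by exact_mod_cast (by omega : b ≠ 0)) (by simpa using hb) h4 h5 h6 (by
    rcases h7 with h7 | h7 | h7
    · exact Dvd.dvd.mul_right (Dvd.dvd.mul_right h7.two_dvd _) _
    · exact Dvd.dvd.mul_right (Dvd.dvd.mul_left h7.two_dvd _) _
    · exact Dvd.dvd.mul_left h7.two_dvd _) y₁ y₂ hy (hy2.trans (Nat.mul_le_mul_right _ hBH)) hlen hpos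
  have e : Pool.Agent.TH935.LF.cn a b c y₁ y₂ = solutions a b c y₁ y₂ := by
    unfold Pool.Agent.TH935.LF.cn solutions
    congr 1
    apply filter_congr
    intro q _
    constructor
    · rintro ⟨g1, p, g2, g3⟩
      exact ⟨g1, p, g2, by rw [g3]; ring⟩
    · rintro ⟨g1, p, g2, g3⟩
      exact ⟨g1, p, g2, by rw [← g3]; ring⟩
  rw [e] at h8
  refine h8.trans ?_
  apply mul_le_mul_of_nonneg_right (min_le_left _ _)
  have h9 := Pool.Agent.W93.GB.one_le_sing (a * b * c).natAbs
  have h10 : (y₁ : ℝ) < y₂ := by exact_mod_cast hy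
  apply div_nonneg _ (by positivity)
  apply mul_nonneg (by linarith) (by linarith)

/-- Let `g ≥ 2`, `d ≥ 2`, `A`, `B`, `C`, `H`, `T`, `W`, `U` and `ε > 0` be fixed, let `k` be large, and put `N = g ^ (d k)`.
Let `J` be an arbitrary finite set of variables, let `E j i` (`j ∈ J`, `i < k`) be arbitrary sets of at least two digits
in base `g`, and let `F` be an arbitrary polynomial with integer coefficients in the variables `x_j`, `j ∈ J`, of total
degree `d`, such that at least one of the nonzero coefficients of degree `d` is at most `k ^ C` in absolute value and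
`|F| ≤ B N` on the box `Bo g k E`. Then for all the tuples `n` of integers `0 ≤ n_j < g ^ k` with the digits number `i`
in `E j i`, except for at most a proportion of `1 / k ^ U` of them, ALL the integers `c ≠ 0` with `|c - F(n)| ≤ k ^ W`
have the property `Holds ε A H T N c`: for all `a, b ≤ (log N) ^ T` such that `a, b, c` satisfy the hypotheses of the
question the number of the prime solutions of `a p - b q = c` with `y₁ < q ≤ y₂` is as predicted by Hardy and
Littlewood, up to a relative error of at most `ε`, whenever `y₂ ≤ H N`, `y₂ - y₁ ≥ N / (log N) ^ A` and `c + b q > 0` for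
`y₁ < q ≤ y₂`. -/
theorem result (g d A B C H T W U : ℕ) (hg : 2 ≤ g) (hd : 2 ≤ d) (ε : ℝ) (hε : 0 < ε) :
    ∃ k₀ : ℕ, ∀ k : ℕ, k₀ ≤ k → ∀ (J : Type) [Fintype J] [DecidableEq J] (E : J → ℕ → Finset ℕ), Digits g k E →
      ∀ F : MvPolynomial J ℤ, F.totalDegree = d →
      (∃ m : J →₀ ℕ, m.degree = d ∧ F.coeff m ≠ 0 ∧ |F.coeff m| ≤ (k : ℤ) ^ C) →
      (∀ n ∈ Bo g k E, |val F n| ≤ B * (g : ℤ) ^ (d * k)) →
      (exceptions g k E F ε A H T W (g ^ (d * k)) : ℝ) ≤ (Bo g k E).card / (k : ℝ) ^ U := by
  classical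
  have hε' : 0 < min ε (1 / 2) := by positivity
  obtain ⟨r, rfl⟩ : ∃ r, d = r + 2 := ⟨d - 2, by omega⟩
  obtain ⟨k₀, h⟩ := near_any g r C B W U hg (fun N c => c ≠ 0 → Pool.Agent.TH935.LF.HW (min ε (1 / 2)) A (B + 1 + H) T N c) (by
      intro h C U _
      obtain ⟨N₀, h0⟩ := Pool.Agent.TH935.LF.transferZ h (B + 1 + H) C U _ (fun C U =>
        Pool.Agent.TH935.LF.fam_lin h A (B + 1 + H) C T U _ hε' (min_le_right _ _))
      refine ⟨N₀, fun N hN ι _ v hv hE S hS => h0 N hN ι v (fun i => (hv i).trans ?_) hE S fun i hi => ?_⟩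
      · push_cast
        have h1 : (0 : ℤ) ≤ H := Int.natCast_nonneg _
        have h2 : (0 : ℤ) ≤ N := Int.natCast_nonneg _
        nlinarith
      · have h1 := hS i hi
        push Not at h1
        exact h1)
  refine ⟨k₀, fun k hk J _ _ E hE F hF hm hv => ?_⟩
  unfold exceptions
  apply h k hk J E hE F hF.le hm hv
  intro n hn
  obtain ⟨c, h1, h2, h3⟩ := hn
  exact ⟨c, h2, fun h4 => h3 (holds_of ε A (B + 1 + H) H T _ (by omega) c (h4 h1))⟩

end Pool.Agent.Results.MP_bf63dc_nt.PolynomialsRestrictedDigits
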